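import Pool.Agent.Helper29.E3.St2

set_option autoImplicit false

/-!
# Project E3, module T1P: the type one part
-/

namespace Pool.Agent.Helper9.E3

open Finset ArithmeticFunction
open Pool.Agent.Helper29.E3 Pool.Agent.Helper49.PC
open Pool.Agent.Helper48.BK (ex th lz Vz Pz gs nd Apx AdN Sol thd)

/-- eventually a power of the logarithm is small against a small power -/
lemma eventually_log_pow_le (C e : ℝ) (m : ℕ) (hC : 0 < C) (he : 0 < e) :
    ∃ x₀ : ℕ, 3 ≤ x₀ ∧ ∀ X : ℕ, x₀ ≤ X → 128 ≤ Real.log X ∧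
      C * Real.log X ^ m ≤ (X : ℝ) ^ e := by
  have h1 : ∀ᶠ x : ℝ in Filter.atTop, C * Real.log x ^ m ≤ x ^ e := by
    have h := isLittleO_log_rpow_rpow_atTop (m : ℝ) he
    have h2 := h.bound (inv_pos.mpr hC)
    filter_upwards [h2, Filter.eventually_ge_atTop (1 : ℝ)] with x hx hx1
    have hl : 0 ≤ Real.log x := Real.log_nonneg hx1
    rw [Real.rpow_natCast, Real.norm_of_nonneg (pow_nonneg hl m),
      Real.norm_of_nonneg (Real.rpow_nonneg (by linarith) e)] at hx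
    calc C * Real.log x ^ m ≤ C * (C⁻¹ * x ^ e) := by
          exact mul_le_mul_of_nonneg_left hx hC.le
      _ = x ^ e := by
          field_simp
  have h2 : ∀ᶠ x : ℝ in Filter.atTop, 128 ≤ Real.log x :=
    Real.tendsto_log_atTop.eventually_ge_atTop 128
  have h3 : ∀ᶠ X : ℕ in Filter.atTop, 128 ≤ Real.log (X : ℝ) ∧
      C * Real.log (X : ℝ) ^ m ≤ (X : ℝ) ^ e :=
    tendsto_natCast_atTop_atTop.eventually (h2.and h1)
  obtain ⟨x₀, hx₀⟩ := Filter.eventually_atTop.mp h3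
  exact ⟨max x₀ 3, le_max_right _ _, fun X hX => hx₀ X (le_trans (le_max_left _ _) hX)⟩

theorem hT1P (hBDG : StBDG) (hPC1 : StPC1) (hPWR : StPWR) : StT1P := by
  intro r A hr
  obtain ⟨C, hC, hPW⟩ := hPWR r hr
  set a : ℕ := 2 * A + 80 with ha
  set e : ℝ := 1 / (3 * (r : ℝ) + 4) with he
  have hepos : 0 < e := by
    rw [he]; positivity
  obtain ⟨x₀, hx3, hx₀⟩ := eventually_log_pow_le (512 * C + 1) e (a + 6 + A) (by positivity) hepos
  refine ⟨x₀, ?_⟩
  intro q _ X U w₀ w₁ α 𝓖 S hX hq hU hUr hw hwX hα hα1 hαG hS hS2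
  obtain ⟨hL128, hbig⟩ := hx₀ X hX
  have hX3 : 3 ≤ X := hx3.trans hX
  set L : ℝ := Real.log X with hL
  have hL1 : 1 ≤ L := by linarith
  have hL0 : 0 < L := by linarith
  have hXpos : (0 : ℝ) < X := by
    have : 0 < X := by omega
    exact_mod_cast this
  have hq1 : 1 ≤ q := NeZero.one_le
  have hqr : (1 : ℝ) ≤ q := by exact_mod_cast hq1
  have hpw := hPW q X U hq1 (by omega) hU hq hUr
  -- the divisor number and the square root are at least one
  have htau : (1 : ℝ) ≤ (q.divisors.card : ℝ) := by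
    have h : 0 < q.divisors.card := by
      rw [Finset.card_pos]
      exact ⟨1, Nat.one_mem_divisors.mpr (by omega)⟩
    exact_mod_cast h
  have hsq : (1 : ℝ) ≤ √(q : ℝ) := by
    rw [Real.one_le_sqrt]; exact hqr
  have hst : (1 : ℝ) ≤ √(q : ℝ) * (q.divisors.card : ℝ) := by nlinarith
  have hGq0 : (0 : ℝ) ≤ (U : ℝ) * q + q := by positivity
  have hGq : (U : ℝ) * q + q ≤ C * (X : ℝ) ^ (1 - e) := by
    calc (U : ℝ) * q + q = 1 * ((U : ℝ) * q + q) := by ring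
      _ ≤ √(q : ℝ) * (q.divisors.card : ℝ) * ((U : ℝ) * q + q) :=
        mul_le_mul_of_nonneg_right hst hGq0
      _ ≤ _ := hpw
  -- splitting the power
  have hXe : (X : ℝ) ^ (1 - e) * (X : ℝ) ^ e = X := by
    rw [← Real.rpow_add hXpos]; simp
  have hXe0 : 0 < (X : ℝ) ^ e := Real.rpow_pos_of_pos hXpos e
  have hX1e0 : 0 < (X : ℝ) ^ (1 - e) := Real.rpow_pos_of_pos hXpos _
  have hLpow : ∀ k : ℕ, k ≤ a + 6 + A → L ^ k ≤ L ^ (a + 6 + A) := fun k hk =>
    pow_le_pow_right₀ hL1 hk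
  have hLp1 : ∀ k : ℕ, 1 ≤ L ^ k := fun k => one_le_pow₀ hL1
  -- main smallness
  have hsm1 : 512 * C * L ^ (a + 6 + A) * (X : ℝ) ^ (1 - e) ≤ X := by
    calc 512 * C * L ^ (a + 6 + A) * (X : ℝ) ^ (1 - e)
        ≤ (512 * C + 1) * L ^ (a + 6 + A) * (X : ℝ) ^ (1 - e) := by
          have := hLp1 (a + 6 + A)
          gcongr
          linarith
      _ ≤ (X : ℝ) ^ e * (X : ℝ) ^ (1 - e) := mul_le_mul_of_nonneg_right hbig hX1e0.le
      _ = X := by rw [mul_comm]; exact hXe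
  have hsm2 : 2 * (C * (X : ℝ) ^ (1 - e)) * L ^ a ≤ X := by
    calc 2 * (C * (X : ℝ) ^ (1 - e)) * L ^ a ≤ 512 * C * L ^ (a + 6 + A) * (X : ℝ) ^ (1 - e) := by
          have h1 := hLpow a (by omega)
          have h2 : 0 ≤ C * (X : ℝ) ^ (1 - e) := by positivity
          have h3 := hLp1 (a + 6 + A)
          nlinarith [mul_le_mul_of_nonneg_left h1 h2, mul_nonneg h2 (by linarith : (0 : ℝ) ≤ L ^ (a + 6 + A))]
      _ ≤ X := hsm1
  have hCX : C * (X : ℝ) ^ (1 - e) ≤ X := by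
    have h2 : 0 ≤ C * (X : ℝ) ^ (1 - e) := by positivity
    nlinarith [mul_le_mul_of_nonneg_left (hLp1 a) h2]
  have hGX : U * q ≤ X := by
    have h : ((U * q : ℕ) : ℝ) ≤ (X : ℝ) := by
      push_cast
      linarith
    exact_mod_cast h
  have hqX : (q : ℝ) ≤ X := by
    have : (0 : ℝ) ≤ (U : ℝ) * q := by positivity
    linarith
  have hlogq : Real.log q ≤ L := Real.log_le_log (by linarith) hqX
  have hlogq0 : 0 ≤ Real.log q := Real.log_nonneg hqr
  -- the constants of BDG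
  set T : ℝ := 2 * L with hT
  set Y : ℝ := 2 * (X : ℝ) ^ 2 * L ^ 2 with hY
  set δ : ℝ := 1 / L ^ a with hδ
  have hδ0 : 0 < δ := by rw [hδ]; positivity
  have hδ1 : δ ≤ 1 := by
    rw [hδ, div_le_one (by positivity)]; exact hLp1 a
  set P : ℝ := √Y * (T * ((U * q : ℕ) + q) * (1 + L) ^ 2) *
      (2 * √(q : ℝ) * (q.divisors.card : ℝ) * (1 + Real.log q)) with hP
  have hP0 : 0 ≤ P := by
    rw [hP]; positivity
  have hone : ∀ n, |one1 n| ≤ T * (n.divisors.card : ℝ) := by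
    intro n
    unfold one1
    by_cases hn : n = 0
    · simp [hn]
    · rw [if_neg hn, abs_one]
      have h : (1 : ℝ) ≤ (n.divisors.card : ℝ) := by
        have h : 0 < n.divisors.card := by
          rw [Finset.card_pos]
          exact ⟨1, Nat.one_mem_divisors.mpr hn⟩
        exact_mod_cast h
      have hT1 : 1 ≤ T := by rw [hT]; linarith
      nlinarith
  have hmain := hBDG q X w₀ w₁ α one1 T δ Y P 𝓖 S hX3 (by rw [hT]; positivity) hα hone hα1 hδ0 hδ1
    hw hwX (fun χ hχ => (hS χ hχ).2) hS2 hP0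
    (fun K K' y₀ y₁ _ _ _ _ => hPC1 q X (U * q) α T K K' y₀ y₁ Y 𝓖 S hX3 hGX (by rw [hT]; positivity)
      hα hαG hS hS2)
  refine hmain.trans ?_
  -- first part
  have hsqrtY : √Y ≤ 2 * (X : ℝ) * L := by
    rw [hY]
    rw [Real.sqrt_le_left (by positivity)]
    have h0 : 0 ≤ (X : ℝ) ^ 2 * L ^ 2 := by positivity
    calc 2 * (X : ℝ) ^ 2 * L ^ 2 ≤ 4 * ((X : ℝ) ^ 2 * L ^ 2) := by linarith
      _ = (2 * (X : ℝ) * L) ^ 2 := by ring
  have hPle : P ≤ 64 * L ^ 5 * (C * (X : ℝ) ^ (1 - e)) * X := by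
    have h1 : (1 + L) ≤ 2 * L := by linarith
    have h2 : (1 + Real.log q) ≤ 2 * L := by linarith
    have h3 : P = √Y * (2 * T * (1 + L) ^ 2 * (1 + Real.log q)) *
        (√(q : ℝ) * (q.divisors.card : ℝ) * ((U : ℝ) * q + q)) := by
      rw [hP]; push_cast; ring
    rw [h3]
    have h4 : 2 * T * (1 + L) ^ 2 * (1 + Real.log q) ≤ 2 * T * (2 * L) ^ 2 * (2 * L) := by
      have hT0 : 0 ≤ T := by rw [hT]; positivity
      gcongr
    calc √Y * (2 * T * (1 + L) ^ 2 * (1 + Real.log q)) *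
        (√(q : ℝ) * (q.divisors.card : ℝ) * ((U : ℝ) * q + q))
        ≤ (2 * (X : ℝ) * L) * (2 * T * (2 * L) ^ 2 * (2 * L)) * (C * (X : ℝ) ^ (1 - e)) := by
          have hT0 : 0 ≤ T := by rw [hT]; positivity
          gcongr
      _ = 64 * L ^ 5 * (C * (X : ℝ) ^ (1 - e)) * X := by rw [hT]; ring
  have hfirst : 2 * (1 + L) / δ * P ≤ (X : ℝ) ^ 2 / (2 * L ^ A) := by
    have h1 : 2 * (1 + L) / δ = 2 * (1 + L) * L ^ a := by
      rw [hδ]; field_simp
    rw [h1, le_div_iff₀ (by positivity)]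
    calc 2 * (1 + L) * L ^ a * P * (2 * L ^ A)
        ≤ 2 * (2 * L) * L ^ a * (64 * L ^ 5 * (C * (X : ℝ) ^ (1 - e)) * X) * (2 * L ^ A) := by
          have h2 : (1 + L) ≤ 2 * L := by linarith
          gcongr
      _ = (512 * C * L ^ (a + 6 + A) * (X : ℝ) ^ (1 - e)) * X := by ring
      _ ≤ X * X := mul_le_mul_of_nonneg_right hsm1 hXpos.le
      _ = (X : ℝ) ^ 2 := by ring
  -- second part
  have hsecond : √Y * √(2 * (δ * X + q + q) * T ^ 4 * X * (1 + L) ^ 63) ≤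
      (X : ℝ) ^ 2 / (2 * L ^ A) := by
    rw [← Real.sqrt_mul (by rw [hY]; positivity)]
    rw [Real.sqrt_le_left (by positivity)]
    have hqδ : (q : ℝ) + q ≤ δ * X := by
      have h1 : (q : ℝ) ≤ C * (X : ℝ) ^ (1 - e) := by
        have : (0 : ℝ) ≤ (U : ℝ) * q := by positivity
        linarith
      rw [hδ, one_div, inv_mul_eq_div, le_div_iff₀ (by positivity)]
      calc ((q : ℝ) + q) * L ^ a ≤ (2 * (C * (X : ℝ) ^ (1 - e))) * L ^ a := by
            gcongr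
            linarith
        _ ≤ X := hsm2
    have hL11 : (2 : ℝ) ^ 72 ≤ L ^ 11 := by
      calc (2 : ℝ) ^ 72 ≤ (128 : ℝ) ^ 11 := by norm_num
        _ ≤ L ^ 11 := by gcongr
    have hδL : δ * L ^ a = 1 := by
      rw [hδ]; field_simp
    have hrhs : ((X : ℝ) ^ 2 / (2 * L ^ A)) ^ 2 = (X : ℝ) ^ 4 / (4 * L ^ (2 * A)) := by
      rw [div_pow]; congr 1
      · ring
      · ring
    rw [hrhs, le_div_iff₀ (by positivity)]
    calc Y * (2 * (δ * X + q + q) * T ^ 4 * X * (1 + L) ^ 63) * (4 * L ^ (2 * A))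
        ≤ Y * (2 * (δ * X + δ * X) * T ^ 4 * X * (2 * L) ^ 63) * (4 * L ^ (2 * A)) := by
          have h2 : (1 + L) ≤ 2 * L := by linarith
          have hT0 : 0 ≤ T := by rw [hT]; positivity
          have hY0 : 0 ≤ Y := by rw [hY]; positivity
          have h3 : δ * (X : ℝ) + q + q ≤ δ * X + δ * X := by linarith
          gcongr
      _ = 2 ^ 72 * (δ * L ^ (2 * A + 69)) * (X : ℝ) ^ 4 := by
          rw [hY, hT]; ring
      _ ≤ L ^ 11 * (δ * L ^ (2 * A + 69)) * (X : ℝ) ^ 4 := by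
          gcongr
      _ = (δ * L ^ a) * (X : ℝ) ^ 4 := by
          rw [ha]; ring
      _ = (X : ℝ) ^ 4 := by rw [hδL, one_mul]
  calc 2 * (1 + L) / δ * P + √Y * √(2 * (δ * X + q + q) * T ^ 4 * X * (1 + L) ^ 63)
      ≤ (X : ℝ) ^ 2 / (2 * L ^ A) + (X : ℝ) ^ 2 / (2 * L ^ A) := add_le_add hfirst hsecond
    _ = (X : ℝ) ^ 2 / L ^ A := by
        field_simp
        ring

end Pool.Agent.Helper9.E3
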